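import Pool.Agent.R110.MT.Tools

/-!
# The reverse-and-duplicate identity for the monotone triangle polynomial

For all `1 ≤ k ≤ n` and `1 ≤ i ≤ n - k + 1` the monotone triangle polynomial `α (n + k; ·)` takes the
value `A_n` at the row `(1, ..., i - 1, i + k - 1, i + k - 1, ..., i, i, i + k, ..., n)`.

Idea of proof. Words in letters `T_k` act on the functionals on words. The functional `α` satisfies
a quadratic relation for two and a cubic relation for three neighbouring letters, in every context.
In the algebra defined by these relations `T_s Ω_[s+1..] = Ω_[s..] T`, where `Ω` is the reversed and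
duplicated block, and the operator of summation over the strictly interlacing rows sends `Ω_m R` to
`Ω_(m-1) R'` (`R` an increasing run).
-/

namespace Pool.Agent.Results.MP_b8c61a_co.ReverseAndDuplicate

open Pool.Agent.R110.MT (IsAlpha mtc)

/-- the row `σ_{n,k,i}`: `1, ..., i - 1`, then `i + k - 1, ..., i`, every entry twice, then
`i + k, ..., n` -/
def sigma (n k i : ℕ) : List ℤ :=
  (List.range (i - 1)).map (fun j : ℕ => (j : ℤ) + 1) ++
    (List.range k).flatMap (fun j : ℕ => [(i : ℤ) + k - 1 - j, (i : ℤ) + k - 1 - j]) ++
    (List.range (n + 1 - i - k)).map (fun j : ℕ => (i : ℤ) + k + j)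

theorem result (n k i : ℕ) (hk : 1 ≤ k) (hkn : k ≤ n) (hi : 1 ≤ i) (hin : i ≤ n - k + 1) :
    (sigma n k i).length = n + k ∧
    ∃ P : MvPolynomial (Fin (n + k)) ℚ, IsAlpha (n + k) P ∧
      (∀ P' : MvPolynomial (Fin (n + k)) ℚ, IsAlpha (n + k) P' → P' = P) ∧
      MvPolynomial.eval (fun j : Fin (n + k) => (((sigma n k i).getD j 0 : ℤ) : ℚ)) P =
        mtc n (fun j : Fin n => (j : ℤ) + 1) := by
  open Pool.Agent.R110.MT in
  obtain ⟨P, hP, -⟩ := exists_alpha (n + k)
  obtain ⟨p, rfl⟩ : ∃ p, i = 1 + p := ⟨i - 1, by omega⟩
  obtain ⟨r, rfl⟩ : ∃ r, n = k + (p + r) := ⟨n - k - p, by omega⟩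
  have hs : sigma (k + (p + r)) k (1 + p) = List.map (fun x : ℕ => (x : ℤ))
      (List.range' 1 p ++ (omw (1 + p) k ++ List.range' (1 + p + k) r)) := by
    rw [sigma, List.map_append, List.map_append, List.append_assoc]
    congr 1
    · rw [show 1 + p - 1 = p by omega, List.range'_eq_map_range, List.map_map]
      apply List.map_congr_left
      intro j _
      simp
      ring
    · congr 1
      · have h : ∀ k : ℕ, List.flatMap (fun j : ℕ => [(((1 + p : ℕ) : ℤ)) + k - 1 - j,
            (((1 + p : ℕ) : ℤ)) + k - 1 - j]) (List.range k) =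
            List.map (fun x : ℕ => (x : ℤ)) (omw (1 + p) k) := by
          intro k
          induction k with
          | zero => rfl
          | succ k ih =>
            rw [List.range_succ_eq_map, List.flatMap_cons, List.flatMap_map, omw, List.map_cons,
              List.map_cons, ← ih]
            simp only [List.cons_append, List.nil_append, List.cons.injEq]
            refine ⟨by push_cast; ring, by push_cast; ring, ?_⟩
            congr 1
            funext j
            have e : ((1 + p : ℕ) : ℤ) + ((k + 1 : ℕ) : ℤ) - 1 - ((j.succ : ℕ) : ℤ) =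
                ((1 + p : ℕ) : ℤ) + (k : ℤ) - 1 - (j : ℤ) := by push_cast; ring
            rw [e]
        exact h k
      · rw [show k + (p + r) + 1 - (1 + p) - k = r by omega, List.range'_eq_map_range, List.map_map]
        apply List.map_congr_left
        intro j _
        simp
  have hl : (List.range' 1 p ++ (omw (1 + p) k ++ List.range' (1 + p + k) r)).length =
      k + (p + r) + k := by
    simp only [List.length_append, List.length_range', length_omw]
    ring
  refine ⟨by rw [hs, List.length_map, hl], P, hP, fun P' hP' => hP.unique hP', ?_⟩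
  rw [hP.evalList _ hl _ hs, al_slides, al_range]

end Pool.Agent.Results.MP_b8c61a_co.ReverseAndDuplicate
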